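import Pool.Agent.V11191.Knight.Final

/-!
# MP_512e2b_pr: the span sets of Knight's walks converge, almost surely and in probability
-/

open Set MeasureTheory Filter Topology ProbabilityTheory
open scoped NNReal ENNReal

namespace Pool.Agent.Results.MP_512e2b_pr.KnightSpan

/-- Knight's times for the mesh `2^{-n}`: `τ_0 = 0`, `τ_{k+1} = inf {t > τ_k : |w(t)-w(τ_k)| = 2^{-n}}` -/
noncomputable def knightTime (w : ℝ → ℝ) (n : ℕ) : ℕ → ℝ
  | 0 => 0
  | k + 1 => sInf {t : ℝ | knightTime w n k < t ∧ |w t - w (knightTime w n k)| = 1 / 2 ^ n}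

/-- Knight's walk `RW^{(n)}_k = 2^n w(τ_k)` -/
noncomputable def knightWalk (w : ℝ → ℝ) (n k : ℕ) : ℝ := 2 ^ n * w (knightTime w n k)

/-- the discrete span set `{k - l ≥ 0 : RW_k = RW_l, 0 ≤ k, l ≤ 2^{2n}}` -/
def SpKRW (w : ℝ → ℝ) (n : ℕ) : Set ℝ :=
  {u | ∃ k l : ℕ, k ≤ 2 ^ (2 * n) ∧ l ≤ 2 ^ (2 * n) ∧ l ≤ k ∧
    knightWalk w n k = knightWalk w n l ∧ u = (k : ℝ) - l}

/-- the span set `{t - s : 0 ≤ s ≤ t ≤ 1, w(s) = w(t)}` -/
def SpanSet (w : ℝ → ℝ) : Set ℝ :=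
  {u | ∃ s t : ℝ, 0 ≤ s ∧ s ≤ t ∧ t ≤ 1 ∧ w s = w t ∧ u = t - s}

/-- the Hausdorff distance of `2^{-2n} Sp^{(n)}_{KRW}` and `Sp^{[0,1]}` -/
noncomputable def dH (w : ℝ → ℝ) (n : ℕ) : ℝ :=
  Metric.hausdorffDist ((fun u : ℝ => u / 2 ^ (2 * n)) '' SpKRW w n) (SpanSet w)

lemma time_eq (w : ℝ → ℝ) (n k : ℕ) :
    knightTime w n k = V11191.Knight.kt w (V11191.Knight.an n) k := by
  induction k with
  | zero => rfl
  | succ k ih =>
    show sInf {t : ℝ | knightTime w n k < t ∧ |w t - w (knightTime w n k)| = 1 / 2 ^ n} =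
      sInf {t : ℝ | V11191.Knight.kt w (V11191.Knight.an n) k < t ∧
        |w t - w (V11191.Knight.kt w (V11191.Knight.an n) k)| = V11191.Knight.an n}
    rw [ih]; rfl

lemma set_eq (w : ℝ → ℝ) (n : ℕ) :
    (fun u : ℝ => u / 2 ^ (2 * n)) '' SpKRW w n = V11191.Knight.SpW w n := by
  have e : (2:ℝ) ^ (2 * n) = 4 ^ n := by rw [pow_mul]; norm_num
  have e' : (2:ℕ) ^ (2 * n) = 4 ^ n := by rw [pow_mul]; norm_num
  have hne : (2:ℝ)^n ≠ 0 := by positivity
  ext u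
  simp only [mem_image]
  constructor
  · rintro ⟨v, ⟨k, l, h1, h2, h3, h4, rfl⟩, rfl⟩
    unfold knightWalk at h4
    rw [time_eq, time_eq] at h4
    exact ⟨l, k, h3, e' ▸ h1, mul_left_cancel₀ hne h4, by rw [e]⟩
  · rintro ⟨l, k, h1, h2, h3, h4⟩
    refine ⟨(k:ℝ) - l, ⟨k, l, e' ▸ h2, e' ▸ (h1.trans h2), h1, ?_, rfl⟩, by rw [e, h4]⟩
    unfold knightWalk
    rw [time_eq, time_eq, h3]

lemma dH_eq (w : ℝ → ℝ) (n : ℕ) :
    dH w n = Metric.hausdorffDist (V11191.Knight.SpW w n) (V11191.Knight.SpS w) := by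
  unfold dH; rw [set_eq]; rfl

/-- **For every Brownian motion the Hausdorff distance between the rescaled span set of Knight's
`n`-th walk and the span set of the path on `[0,1]` tends to `0`, almost surely and in
probability.** -/
theorem result {Ω : Type*} [MeasurableSpace Ω] {P : Measure Ω} {B : ℝ≥0 → Ω → ℝ}
    (hB : IsBrownianReal B P) :
    (∀ ε > 0, Tendsto (fun n : ℕ => P {ω | ε ≤ dH (fun t => B t.toNNReal ω) n}) atTop (𝓝 0)) ∧
    ∀ᵐ ω ∂P, Tendsto (fun n : ℕ => dH (fun t => B t.toNNReal ω) n) atTop (𝓝 0) := by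
  obtain ⟨V, hm, hc, hV⟩ := V11191.Span.exists_mod hB
  have hVB : IsPreBrownianReal V P := by
    refine hB.toIsPreBrownianReal.congr fun t => ?_
    filter_upwards [hV] with ω hω using (hω t).symm
  have hpth : ∀ᵐ ω ∂P, (fun t : ℝ => B t.toNNReal ω) = V11191.Span.pth V ω := by
    filter_upwards [hV] with ω hω
    funext t; exact (hω _).symm
  obtain ⟨h1, h2⟩ := V11191.Knight.main_V hm hc hVB
  constructor
  · intro ε hε
    refine (h2 ε hε).congr fun n => ?_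
    refine measure_congr ?_
    filter_upwards [hpth] with ω hω
    refine propext ?_
    show ε ≤ _ ↔ ε ≤ dH (fun t => B t.toNNReal ω) n
    rw [hω, dH_eq]
  · filter_upwards [h1, hpth] with ω hω1 hω2
    rw [hω2]
    simp_rw [dH_eq]
    exact hω1

end Pool.Agent.Results.MP_512e2b_pr.KnightSpan
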